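import Pool.Agent.CS4.Fin

/-!
# Numerical form of the bound
-/

namespace Pool.Agent.CS4

theorem bound_four (j d : ℕ) (hd : 1 ≤ d) (hj : d ≤ 4 ^ j) :
    ∃ V : Finset (Fin d → ℝ), IsCSSimplicialPolytope V ∧ ¬ HasCSFourCycle V ∧
      V.card ≤ 2 ^ (5 * 2 ^ j - 3) := by
  obtain ⟨A, B, h, hA, hB⟩ := hasPairs_four j d hd hj
  obtain ⟨V, h1, h2, h3⟩ := exists_polytope_of_pair hd h
  refine ⟨V, h1, h2, le_trans h3 (le_trans (Nat.mul_le_mul hA hB) (le_of_eq ?_))⟩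
  have h0 : 1 ≤ 2 ^ j := Nat.one_le_two_pow
  rw [← pow_add]
  congr 1
  omega

theorem bound_two_four (j d : ℕ) (hd : 1 ≤ d) (hj : d ≤ 2 * 4 ^ j) :
    ∃ V : Finset (Fin d → ℝ), IsCSSimplicialPolytope V ∧ ¬ HasCSFourCycle V ∧
      V.card ≤ 2 ^ (7 * 2 ^ j - 3) := by
  obtain ⟨A, B, h, hA, hB⟩ := hasPairs_two_four j d hd hj
  obtain ⟨V, h1, h2, h3⟩ := exists_polytope_of_pair hd h
  refine ⟨V, h1, h2, le_trans h3 (le_trans (Nat.mul_le_mul hA hB) (le_of_eq ?_))⟩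
  have h0 : 1 ≤ 2 ^ j := Nat.one_le_two_pow
  rw [← pow_add]
  congr 1
  omega

theorem bound_all (d : ℕ) (hd : 1 ≤ d) :
    ∃ V : Finset (Fin d → ℝ), IsCSSimplicialPolytope V ∧ ¬ HasCSFourCycle V ∧
      (V.card : ℝ) ≤ 2 ^ (5 * √(2 * d)) := by
  -- the smallest power of two that is at least `d`
  obtain ⟨i, hi, hmin⟩ : ∃ i, d ≤ 2 ^ i ∧ ∀ k, k < i → ¬ d ≤ 2 ^ k := by
    have hex : ∃ i, d ≤ 2 ^ i := ⟨d, Nat.lt_two_pow_self.le⟩
    exact ⟨Nat.find hex, Nat.find_spec hex, fun k hk => Nat.find_min hex hk⟩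
  have key : ∀ (V : Finset (Fin d → ℝ)) (e : ℕ), V.card ≤ 2 ^ e → (e : ℝ) ≤ 5 * √(2 * d) →
      (V.card : ℝ) ≤ 2 ^ (5 * √(2 * d)) := by
    intro V e h1 h2
    calc (V.card : ℝ) ≤ (2 : ℝ) ^ e := by exact_mod_cast h1
      _ = (2 : ℝ) ^ (e : ℝ) := by rw [Real.rpow_natCast]
      _ ≤ 2 ^ (5 * √(2 * d)) := Real.rpow_le_rpow_of_exponent_le (by norm_num) h2
  rcases Nat.even_or_odd' i with ⟨j, hj | hj⟩
  · -- `i = 2 j`
    subst hj
    obtain ⟨V, h1, h2, h3⟩ := bound_four j d hd (by rwa [pow_mul] at hi)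
    refine ⟨V, h1, h2, key V _ h3 ?_⟩
    have h4 : (2 ^ j : ℝ) ≤ √(2 * d) := by
      apply Real.le_sqrt_of_sq_le
      rcases Nat.eq_zero_or_pos j with rfl | hj0
      · norm_num
        have : (1 : ℝ) ≤ d := by exact_mod_cast hd
        linarith
      · have h5 := hmin (2 * j - 1) (by omega)
        push Not at h5
        have h6 : (2 ^ (2 * j - 1) : ℝ) ≤ d := by exact_mod_cast h5.le
        calc ((2 : ℝ) ^ j) ^ 2 = 2 * 2 ^ (2 * j - 1) := by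
              rw [← pow_mul, ← pow_succ']
              congr 1
              omega
          _ ≤ 2 * d := by linarith
    have h7 : ((5 * 2 ^ j - 3 : ℕ) : ℝ) ≤ 5 * 2 ^ j := by
      calc ((5 * 2 ^ j - 3 : ℕ) : ℝ) ≤ ((5 * 2 ^ j : ℕ) : ℝ) := by exact_mod_cast Nat.sub_le _ _
        _ = 5 * 2 ^ j := by push_cast; ring
    linarith
  · -- `i = 2 j + 1`
    subst hj
    obtain ⟨V, h1, h2, h3⟩ := bound_two_four j d hd (by
      rw [pow_succ, pow_mul, show (2 : ℕ) ^ 2 = 4 from rfl, mul_comm] at hi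
      exact hi)
    refine ⟨V, h1, h2, key V _ h3 ?_⟩
    have h5 := hmin (2 * j) (by omega)
    push Not at h5
    have h6 : (4 ^ j : ℝ) ≤ d := by
      have : (2 ^ (2 * j) : ℝ) ≤ d := by exact_mod_cast h5.le
      rwa [pow_mul, show (2 : ℝ) ^ 2 = 4 by norm_num] at this
    have h4 : (7 / 5 * 2 ^ j : ℝ) ≤ √(2 * d) := by
      apply Real.le_sqrt_of_sq_le
      calc (7 / 5 * (2 : ℝ) ^ j) ^ 2 = 49 / 25 * 4 ^ j := by
            rw [mul_pow, ← pow_mul, mul_comm j 2, pow_mul]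
            norm_num
        _ ≤ 2 * d := by
            have h0 : (0 : ℝ) < 4 ^ j := by positivity
            nlinarith
    have h7 : ((7 * 2 ^ j - 3 : ℕ) : ℝ) ≤ 7 * 2 ^ j := by
      calc ((7 * 2 ^ j - 3 : ℕ) : ℝ) ≤ ((7 * 2 ^ j : ℕ) : ℝ) := by exact_mod_cast Nat.sub_le _ _
        _ = 7 * 2 ^ j := by push_cast; ring
    linarith

end Pool.Agent.CS4
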