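import Mathlib

/-!
# Centrally symmetric simplicial polytopes and centrally symmetric 4-cycles
-/

namespace Pool.Agent.CS4

/-- The points of `V` at which the linear functional `⟨u, ·⟩` is largest on `V`.  For `u ≠ 0` this is the
vertex set of a proper face of the convex hull of `V`. -/
def Face {d : ℕ} (V : Finset (Fin d → ℝ)) (u : Fin d → ℝ) : Set (Fin d → ℝ) :=
  {v | v ∈ V ∧ ∀ w ∈ V, u ⬝ᵥ w ≤ u ⬝ᵥ v}

/-- `V` is the vertex set of a centrally symmetric simplicial `d`-polytope in `ℝ^d`. -/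
structure IsCSSimplicialPolytope {d : ℕ} (V : Finset (Fin d → ℝ)) : Prop where
  /-- the polytope is centrally symmetric -/
  symm : ∀ v ∈ V, -v ∈ V
  /-- the polytope has dimension `d` -/
  full : affineSpan ℝ (V : Set (Fin d → ℝ)) = ⊤
  /-- every point of `V` is a vertex of the convex hull of `V` -/
  vertex : ∀ v ∈ V, v ∉ convexHull ℝ ((V : Set (Fin d → ℝ)) \ {v})
  /-- every proper face is a simplex -/
  simplicial : ∀ u : Fin d → ℝ, u ≠ 0 → AffineIndependent ℝ (fun v : Face V u => (v : Fin d → ℝ))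

/-- The segment from `v` to `w` is an edge of the convex hull of `V`. -/
def IsEdge {d : ℕ} (V : Finset (Fin d → ℝ)) (v w : Fin d → ℝ) : Prop :=
  v ≠ w ∧ ∃ u : Fin d → ℝ, u ≠ 0 ∧ Face V u = {v, w}

/-- There is a cycle `v, w, -v, -w` of four edges on four distinct vertices. -/
def HasCSFourCycle {d : ℕ} (V : Finset (Fin d → ℝ)) : Prop :=
  ∃ v ∈ V, ∃ w ∈ V, w ≠ v ∧ w ≠ -v ∧ IsEdge V v w ∧ IsEdge V w (-v) ∧ IsEdge V (-v) (-w) ∧
    IsEdge V (-w) v

/-- The smallest number of vertices of a centrally symmetric simplicial `d`-polytope without centrally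
symmetric 4-cycles. -/
noncomputable def m (d : ℕ) : ℕ :=
  sInf {n : ℕ | ∃ V : Finset (Fin d → ℝ), IsCSSimplicialPolytope V ∧ ¬ HasCSFourCycle V ∧ V.card = n}

end Pool.Agent.CS4
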