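import Mathlib

/-!
# Compatible pairs of finite symmetric sets
-/

namespace Pool.Agent.CS4

/-- `A`, `B` finite symmetric spanning sets; maximisers of the same functional have positive
scalar product. -/
structure Pair {d : ℕ} (A B : Finset (Fin d → ℝ)) : Prop where
  symA : ∀ a ∈ A, -a ∈ A
  symB : ∀ b ∈ B, -b ∈ B
  spanA : ∀ u : Fin d → ℝ, u ≠ 0 → ∃ a ∈ A, 0 < u ⬝ᵥ a
  spanB : ∀ u : Fin d → ℝ, u ≠ 0 → ∃ b ∈ B, 0 < u ⬝ᵥ b
  comp : ∀ u : Fin d → ℝ, u ≠ 0 → ∀ a ∈ A, ∀ b ∈ B, (∀ a' ∈ A, u ⬝ᵥ a' ≤ u ⬝ᵥ a) →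
    (∀ b' ∈ B, u ⬝ᵥ b' ≤ u ⬝ᵥ b) → 0 < a ⬝ᵥ b

theorem Pair.swap {d : ℕ} {A B : Finset (Fin d → ℝ)} (h : Pair A B) : Pair B A :=
  ⟨h.symB, h.symA, h.spanB, h.spanA, fun u hu b hb a ha h1 h2 => by
    rw [dotProduct_comm]; exact h.comp u hu a ha b hb h2 h1⟩

theorem append_dot {m n : ℕ} (x : Fin m → ℝ) (y : Fin n → ℝ) (u : Fin (m + n) → ℝ) :
    u ⬝ᵥ Fin.append x y = (fun i => u (Fin.castAdd n i)) ⬝ᵥ x + (fun j => u (Fin.natAdd m j)) ⬝ᵥ y := by
  simp [dotProduct, Fin.sum_univ_add]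

theorem append_dot_append {m n : ℕ} (x : Fin m → ℝ) (y : Fin n → ℝ) (x' : Fin m → ℝ)
    (y' : Fin n → ℝ) : Fin.append x y ⬝ᵥ Fin.append x' y' = x ⬝ᵥ x' + y ⬝ᵥ y' := by
  simp [dotProduct, Fin.sum_univ_add]

theorem neg_append {m n : ℕ} (x : Fin m → ℝ) (y : Fin n → ℝ) :
    -Fin.append x y = Fin.append (-x) (-y) := by
  funext i
  refine Fin.addCases (fun i => ?_) (fun j => ?_) i <;> simp

theorem ne_zero_parts {m n : ℕ} {u : Fin (m + n) → ℝ} (hu : u ≠ 0) :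
    (fun i => u (Fin.castAdd n i)) ≠ 0 ∨ (fun j => u (Fin.natAdd m j)) ≠ 0 := by
  by_contra h
  push_neg at h
  apply hu
  funext i
  refine Fin.addCases (fun i => ?_) (fun j => ?_) i
  · exact congrFun h.1 i
  · exact congrFun h.2 j

/-- product of the two sets -/
noncomputable def prodSet {m n : ℕ} (A₁ : Finset (Fin m → ℝ)) (A₂ : Finset (Fin n → ℝ)) :
    Finset (Fin (m + n) → ℝ) := by
  classical
  exact (A₁ ×ˢ A₂).image (fun p => Fin.append p.1 p.2)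

/-- union of the two sets, placed in the two factors -/
noncomputable def sumSet {m n : ℕ} (B₁ : Finset (Fin m → ℝ)) (B₂ : Finset (Fin n → ℝ)) :
    Finset (Fin (m + n) → ℝ) := by
  classical
  exact B₁.image (fun b => Fin.append b 0) ∪ B₂.image (fun b => Fin.append 0 b)

theorem mem_prodSet {m n : ℕ} {A₁ : Finset (Fin m → ℝ)} {A₂ : Finset (Fin n → ℝ)}
    {v : Fin (m + n) → ℝ} : v ∈ prodSet A₁ A₂ ↔ ∃ a₁ ∈ A₁, ∃ a₂ ∈ A₂, v = Fin.append a₁ a₂ := by
  classical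
  unfold prodSet
  simp only [Finset.mem_image, Finset.mem_product, Prod.exists]
  constructor
  · rintro ⟨a, b, ⟨h1, h2⟩, h3⟩
    exact ⟨a, h1, b, h2, h3.symm⟩
  · rintro ⟨a, h1, b, h2, h3⟩
    exact ⟨a, b, ⟨h1, h2⟩, h3.symm⟩

theorem mem_sumSet {m n : ℕ} {B₁ : Finset (Fin m → ℝ)} {B₂ : Finset (Fin n → ℝ)}
    {v : Fin (m + n) → ℝ} : v ∈ sumSet B₁ B₂ ↔
      (∃ b ∈ B₁, v = Fin.append b 0) ∨ (∃ b ∈ B₂, v = Fin.append 0 b) := by
  classical
  unfold sumSet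
  simp only [Finset.mem_union, Finset.mem_image]
  constructor
  · rintro (⟨b, h1, h2⟩ | ⟨b, h1, h2⟩)
    · exact Or.inl ⟨b, h1, h2.symm⟩
    · exact Or.inr ⟨b, h1, h2.symm⟩
  · rintro (⟨b, h1, h2⟩ | ⟨b, h1, h2⟩)
    · exact Or.inl ⟨b, h1, h2.symm⟩
    · exact Or.inr ⟨b, h1, h2.symm⟩

theorem card_prodSet_le {m n : ℕ} (A₁ : Finset (Fin m → ℝ)) (A₂ : Finset (Fin n → ℝ)) :
    (prodSet A₁ A₂).card ≤ A₁.card * A₂.card := by
  classical
  unfold prodSet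
  exact le_trans Finset.card_image_le (by rw [Finset.card_product])

theorem card_sumSet_le {m n : ℕ} (B₁ : Finset (Fin m → ℝ)) (B₂ : Finset (Fin n → ℝ)) :
    (sumSet B₁ B₂).card ≤ B₁.card + B₂.card := by
  classical
  unfold sumSet
  exact le_trans (Finset.card_union_le _ _) (add_le_add Finset.card_image_le Finset.card_image_le)

/-- in a symmetric set with positive values for nonzero functionals there is a nonnegative value
for every functional -/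
theorem exists_nonneg {n : ℕ} {A : Finset (Fin n → ℝ)} (hne : A.Nonempty)
    (hs : ∀ a ∈ A, -a ∈ A) (u : Fin n → ℝ) : ∃ a ∈ A, 0 ≤ u ⬝ᵥ a := by
  obtain ⟨a, ha⟩ := hne
  rcases le_total 0 (u ⬝ᵥ a) with h | h
  · exact ⟨a, ha, h⟩
  · exact ⟨-a, hs a ha, by rw [dotProduct_neg]; linarith⟩

theorem Pair.neA {n : ℕ} {A B : Finset (Fin n → ℝ)} (h : Pair A B) (hn : 1 ≤ n) : A.Nonempty := by
  have h1 : (fun _ : Fin n => (1 : ℝ)) ≠ 0 := by
    intro h0
    have := congrFun h0 ⟨0, by omega⟩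
    simp at this
  obtain ⟨a, ha, _⟩ := h.spanA _ h1
  exact ⟨a, ha⟩

theorem Pair.comb {m n : ℕ} (hm : 1 ≤ m) (hn : 1 ≤ n) {A₁ B₁ : Finset (Fin m → ℝ)}
    {A₂ B₂ : Finset (Fin n → ℝ)} (h₁ : Pair A₁ B₁) (h₂ : Pair A₂ B₂) :
    Pair (prodSet A₁ A₂) (sumSet B₁ B₂) := by
  have hneA₁ : A₁.Nonempty := h₁.neA hm
  have hneA₂ : A₂.Nonempty := h₂.neA hn
  have hneB₁ : B₁.Nonempty := h₁.swap.neA hm
  refine ⟨?_, ?_, ?_, ?_, ?_⟩
  · intro a ha
    rw [mem_prodSet] at ha ⊢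
    obtain ⟨a₁, h1, a₂, h2, rfl⟩ := ha
    exact ⟨-a₁, h₁.symA _ h1, -a₂, h₂.symA _ h2, neg_append _ _⟩
  · intro b hb
    rw [mem_sumSet] at hb ⊢
    rcases hb with ⟨b, h1, rfl⟩ | ⟨b, h1, rfl⟩
    · exact Or.inl ⟨-b, h₁.symB _ h1, by rw [neg_append, neg_zero]⟩
    · exact Or.inr ⟨-b, h₂.symB _ h1, by rw [neg_append, neg_zero]⟩
  · intro u hu
    rcases ne_zero_parts hu with h | h
    · obtain ⟨a, ha, h1⟩ := h₁.spanA _ h
      obtain ⟨a', ha', h2⟩ := exists_nonneg hneA₂ h₂.symA (fun j => u (Fin.natAdd m j))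
      refine ⟨Fin.append a a', mem_prodSet.2 ⟨a, ha, a', ha', rfl⟩, ?_⟩
      rw [append_dot]; linarith
    · obtain ⟨a, ha, h1⟩ := h₂.spanA _ h
      obtain ⟨a', ha', h2⟩ := exists_nonneg hneA₁ h₁.symA (fun j => u (Fin.castAdd n j))
      refine ⟨Fin.append a' a, mem_prodSet.2 ⟨a', ha', a, ha, rfl⟩, ?_⟩
      rw [append_dot]; linarith
  · intro u hu
    rcases ne_zero_parts hu with h | h
    · obtain ⟨a, ha, h1⟩ := h₁.spanB _ h
      refine ⟨Fin.append a 0, mem_sumSet.2 (Or.inl ⟨a, ha, rfl⟩), ?_⟩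
      rw [append_dot, dotProduct_zero]; linarith
    · obtain ⟨a, ha, h1⟩ := h₂.spanB _ h
      refine ⟨Fin.append 0 a, mem_sumSet.2 (Or.inr ⟨a, ha, rfl⟩), ?_⟩
      rw [append_dot, dotProduct_zero]; linarith
  · intro u hu a ha b hb hmaxA hmaxB
    rw [mem_prodSet] at ha
    obtain ⟨a₁, ha₁, a₂, ha₂, rfl⟩ := ha
    have hA₁ : ∀ a' ∈ A₁, (fun i => u (Fin.castAdd n i)) ⬝ᵥ a' ≤
        (fun i => u (Fin.castAdd n i)) ⬝ᵥ a₁ := by
      intro a' ha'
      have := hmaxA _ (mem_prodSet.2 ⟨a', ha', a₂, ha₂, rfl⟩)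
      rw [append_dot, append_dot] at this
      linarith
    have hA₂ : ∀ a' ∈ A₂, (fun j => u (Fin.natAdd m j)) ⬝ᵥ a' ≤
        (fun j => u (Fin.natAdd m j)) ⬝ᵥ a₂ := by
      intro a' ha'
      have := hmaxA _ (mem_prodSet.2 ⟨a₁, ha₁, a', ha', rfl⟩)
      rw [append_dot, append_dot] at this
      linarith
    rw [mem_sumSet] at hb
    rcases hb with ⟨b₁, hb₁, rfl⟩ | ⟨b₂, hb₂, rfl⟩
    · have hB₁ : ∀ b' ∈ B₁, (fun i => u (Fin.castAdd n i)) ⬝ᵥ b' ≤
          (fun i => u (Fin.castAdd n i)) ⬝ᵥ b₁ := by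
        intro b' hb'
        have := hmaxB _ (mem_sumSet.2 (Or.inl ⟨b', hb', rfl⟩))
        rw [append_dot, append_dot] at this
        linarith
      have hu₁ : (fun i => u (Fin.castAdd n i)) ≠ 0 := by
        intro h0
        rcases ne_zero_parts hu with h | h
        · exact h h0
        · obtain ⟨b', hb', h1⟩ := h₂.spanB _ h
          have := hmaxB _ (mem_sumSet.2 (Or.inr ⟨b', hb', rfl⟩))
          rw [append_dot, append_dot, h0, zero_dotProduct, zero_dotProduct, dotProduct_zero] at this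
          linarith
      rw [append_dot_append, dotProduct_zero, add_zero]
      exact h₁.comp _ hu₁ a₁ ha₁ b₁ hb₁ hA₁ hB₁
    · have hB₂ : ∀ b' ∈ B₂, (fun j => u (Fin.natAdd m j)) ⬝ᵥ b' ≤
          (fun j => u (Fin.natAdd m j)) ⬝ᵥ b₂ := by
        intro b' hb'
        have := hmaxB _ (mem_sumSet.2 (Or.inr ⟨b', hb', rfl⟩))
        rw [append_dot, append_dot] at this
        linarith
      have hu₂ : (fun j => u (Fin.natAdd m j)) ≠ 0 := by
        intro h0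
        rcases ne_zero_parts hu with h | h
        · obtain ⟨b', hb', h1⟩ := h₁.spanB _ h
          have := hmaxB _ (mem_sumSet.2 (Or.inl ⟨b', hb', rfl⟩))
          rw [append_dot, append_dot, h0, zero_dotProduct, zero_dotProduct, dotProduct_zero] at this
          linarith
        · exact h h0
      rw [append_dot_append, dotProduct_zero, zero_add]
      exact h₂.comp _ hu₂ a₂ ha₂ b₂ hb₂ hA₂ hB₂

/-- the pair in dimension one -/
theorem pair_one : ∃ A B : Finset (Fin 1 → ℝ), Pair A B ∧ A.card ≤ 2 ∧ B.card ≤ 2 := by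
  classical
  refine ⟨{1, -1}, {1, -1}, ⟨?_, ?_, ?_, ?_, ?_⟩, Finset.card_le_two, Finset.card_le_two⟩
  · intro a ha
    simp only [Finset.mem_insert, Finset.mem_singleton] at ha ⊢
    rcases ha with rfl | rfl <;> simp
  · intro a ha
    simp only [Finset.mem_insert, Finset.mem_singleton] at ha ⊢
    rcases ha with rfl | rfl <;> simp
  · intro u hu
    have h0 : u 0 ≠ 0 := fun h => hu (by funext i; rw [Subsingleton.elim i 0]; exact h)
    rcases lt_or_gt_of_ne h0 with h | h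
    · exact ⟨-1, by simp, by simp [dotProduct]; linarith⟩
    · exact ⟨1, by simp, by simp [dotProduct]; linarith⟩
  · intro u hu
    have h0 : u 0 ≠ 0 := fun h => hu (by funext i; rw [Subsingleton.elim i 0]; exact h)
    rcases lt_or_gt_of_ne h0 with h | h
    · exact ⟨-1, by simp, by simp [dotProduct]; linarith⟩
    · exact ⟨1, by simp, by simp [dotProduct]; linarith⟩
  · intro u hu a ha b hb hA hB
    have h0 : u 0 ≠ 0 := fun h => hu (by funext i; rw [Subsingleton.elim i 0]; exact h)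
    simp only [Finset.mem_insert, Finset.mem_singleton] at ha hb hA hB
    have hA1 := hA 1 (Or.inl rfl)
    have hA2 := hA (-1) (Or.inr rfl)
    have hB1 := hB 1 (Or.inl rfl)
    have hB2 := hB (-1) (Or.inr rfl)
    rcases lt_or_gt_of_ne h0 with h | h <;> rcases ha with rfl | rfl <;> rcases hb with rfl | rfl <;>
      simp [dotProduct] at hA1 hA2 hB1 hB2 ⊢ <;> linarith

/-- pairs in all dimensions up to `n` with cardinalities at most `F`, `G` -/
def HasPairs (n F G : ℕ) : Prop :=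
  ∀ d : ℕ, 1 ≤ d → d ≤ n → ∃ A B : Finset (Fin d → ℝ), Pair A B ∧ A.card ≤ F ∧ B.card ≤ G

theorem HasPairs.swap {n F G : ℕ} (h : HasPairs n F G) : HasPairs n G F := by
  intro d h1 h2
  obtain ⟨A, B, h3, h4, h5⟩ := h d h1 h2
  exact ⟨B, A, h3.swap, h5, h4⟩

theorem HasPairs.double {n F G : ℕ} (h : HasPairs n F G) (hn : 1 ≤ n) :
    HasPairs (2 * n) (F ^ 2) (2 * G) := by
  intro d h1 h2
  by_cases hd : d ≤ n
  · obtain ⟨A, B, h3, h4, h5⟩ := h d h1 hd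
    refine ⟨A, B, h3, le_trans h4 ?_, le_trans h5 (by omega)⟩
    exact Nat.le_self_pow (by norm_num) F
  · obtain ⟨e, he⟩ : ∃ e, d = n + e := ⟨d - n, by omega⟩
    subst he
    obtain ⟨A, B, h3, h4, h5⟩ := h n hn le_rfl
    obtain ⟨A', B', h3', h4', h5'⟩ := h e (by omega) (by omega)
    refine ⟨prodSet A A', sumSet B B', h3.comb hn (by omega) h3', ?_, ?_⟩
    · refine le_trans (card_prodSet_le _ _) ?_
      calc _ ≤ F * F := Nat.mul_le_mul h4 h4'
        _ = F ^ 2 := by ring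
    · refine le_trans (card_sumSet_le _ _) ?_
      omega

theorem hasPairs_one : HasPairs 1 2 2 := by
  intro d h1 h2
  obtain rfl : d = 1 := by omega
  exact pair_one

theorem hasPairs_four (j : ℕ) : HasPairs (4 ^ j) (2 ^ (2 * 2 ^ j - 1)) (2 ^ (3 * 2 ^ j - 2)) := by
  induction j with
  | zero => simpa using hasPairs_one
  | succ j ih =>
    have h0 : 1 ≤ 2 ^ j := Nat.one_le_two_pow
    have h1 : 1 ≤ 4 ^ j := Nat.one_le_pow _ _ (by norm_num)
    have h2 := ((ih.double h1).swap.double (by omega)).swap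
    have e1 : 2 * (2 * 4 ^ j) = 4 ^ (j + 1) := by rw [pow_succ]; ring
    have e2 : 2 * (2 ^ (2 * 2 ^ j - 1)) ^ 2 = 2 ^ (2 * 2 ^ (j + 1) - 1) := by
      rw [← pow_mul, ← pow_succ', pow_succ 2 j]
      congr 1
      omega
    have e3 : (2 * 2 ^ (3 * 2 ^ j - 2)) ^ 2 = 2 ^ (3 * 2 ^ (j + 1) - 2) := by
      rw [← pow_succ', ← pow_mul, pow_succ 2 j]
      congr 1
      omega
    rw [e1, e2, e3] at h2
    exact h2

theorem hasPairs_two_four (j : ℕ) :
    HasPairs (2 * 4 ^ j) (2 ^ (4 * 2 ^ j - 2)) (2 ^ (3 * 2 ^ j - 1)) := by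
  have h0 : 1 ≤ 2 ^ j := Nat.one_le_two_pow
  have h1 : 1 ≤ 4 ^ j := Nat.one_le_pow _ _ (by norm_num)
  have h2 := (hasPairs_four j).double h1
  have e2 : (2 ^ (2 * 2 ^ j - 1)) ^ 2 = 2 ^ (4 * 2 ^ j - 2) := by
    rw [← pow_mul]
    congr 1
    omega
  have e3 : 2 * 2 ^ (3 * 2 ^ j - 2) = 2 ^ (3 * 2 ^ j - 1) := by
    rw [← pow_succ']
    congr 1
    omega
  rw [e2, e3] at h2
  exact h2

end Pool.Agent.CS4
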