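import Pool.Agent.CS4.Poly
import Pool.Agent.CS4.Pair

/-!
# The polytope of a compatible pair
-/

open Set

namespace Pool.Agent.CS4

variable {d : ℕ}

theorem exists_extreme (X : Finset (Fin d → ℝ)) (hsym : ∀ v ∈ X, -v ∈ X) :
    ∃ V : Finset (Fin d → ℝ), V ⊆ X ∧ (∀ v ∈ V, -v ∈ V) ∧
      convexHull ℝ (V : Set (Fin d → ℝ)) = convexHull ℝ (X : Set (Fin d → ℝ)) ∧
      ∀ v ∈ V, v ∉ convexHull ℝ ((V : Set (Fin d → ℝ)) \ {v}) := by
  classical
  have hsub := extremePoints_convexHull_subset (𝕜 := ℝ) (A := (X : Set (Fin d → ℝ)))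
  have hmem : ∀ v, v ∈ X.filter (fun v => v ∈ (convexHull ℝ (X : Set (Fin d → ℝ))).extremePoints ℝ) ↔
      v ∈ (convexHull ℝ (X : Set (Fin d → ℝ))).extremePoints ℝ := by
    intro v
    rw [Finset.mem_filter]
    exact ⟨fun h => h.2, fun h => ⟨hsub h, h⟩⟩
  have hcoe : ((X.filter (fun v => v ∈ (convexHull ℝ (X : Set (Fin d → ℝ))).extremePoints ℝ) :
      Finset (Fin d → ℝ)) : Set (Fin d → ℝ)) = (convexHull ℝ (X : Set (Fin d → ℝ))).extremePoints ℝ := by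
    ext v
    exact hmem v
  have hhull : convexHull ℝ ((convexHull ℝ (X : Set (Fin d → ℝ))).extremePoints ℝ) =
      convexHull ℝ (X : Set (Fin d → ℝ)) := by
    have h1 := closure_convexHull_extremePoints (s := convexHull ℝ (X : Set (Fin d → ℝ)))
      (X.finite_toSet.isCompact_convexHull ℝ) (convex_convexHull ℝ _)
    rw [← hcoe] at h1 ⊢
    rwa [(Set.Finite.isClosed_convexHull ℝ (Finset.finite_toSet _)).closure_eq] at h1
  refine ⟨X.filter (fun v => v ∈ (convexHull ℝ (X : Set (Fin d → ℝ))).extremePoints ℝ),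
    Finset.filter_subset _ _, ?_, ?_, ?_⟩
  · intro v hv
    rw [hmem] at hv ⊢
    have h1 := image_extremePoints (𝕜 := ℝ) (LinearEquiv.neg ℝ : (Fin d → ℝ) ≃ₗ[ℝ] (Fin d → ℝ))
      (convexHull ℝ (X : Set (Fin d → ℝ)))
    have h2 : (LinearEquiv.neg ℝ : (Fin d → ℝ) ≃ₗ[ℝ] (Fin d → ℝ)) ''
        (convexHull ℝ (X : Set (Fin d → ℝ))) = convexHull ℝ (X : Set (Fin d → ℝ)) := by
      have h3 := LinearMap.image_convexHull
        (LinearEquiv.neg ℝ : (Fin d → ℝ) ≃ₗ[ℝ] (Fin d → ℝ)).toLinearMap (X : Set (Fin d → ℝ))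
      have h4 : (LinearEquiv.neg ℝ : (Fin d → ℝ) ≃ₗ[ℝ] (Fin d → ℝ)).toLinearMap ''
          (X : Set (Fin d → ℝ)) = X := by
        ext x
        constructor
        · rintro ⟨y, hy, rfl⟩
          simpa using hsym y hy
        · intro hx
          exact ⟨-x, hsym x hx, by simp⟩
      rw [h4] at h3
      exact h3
    rw [h2] at h1
    rw [← h1]
    exact ⟨v, hv, by simp⟩
  · rw [hcoe, hhull]
  · intro v hv hcon
    rw [hcoe] at hcon
    rw [hmem] at hv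
    have h1 := ((convex_convexHull ℝ (X : Set (Fin d → ℝ))).mem_extremePoints_iff_mem_sdiff_convexHull_sdiff).1 hv
    apply h1.2
    refine convexHull_mono ?_ hcon
    intro w hw
    exact ⟨extremePoints_subset hw.1, hw.2⟩

theorem exists_polytope (hd : 1 ≤ d) (X : Finset (Fin d → ℝ)) (hsym : ∀ v ∈ X, -v ∈ X)
    (hG : GPos X) (hspan : ∀ u : Fin d → ℝ, u ≠ 0 → ∃ v ∈ X, 0 < u ⬝ᵥ v)
    (hconf : ∀ u u' : Fin d → ℝ, u ≠ 0 → u' ≠ 0 → ∀ v ∈ X, ∀ w ∈ X, MaxAt X u v → MaxAt X u w →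
      MaxAt X u' v → MaxAt X u' (-w) → False) :
    ∃ V : Finset (Fin d → ℝ), IsCSSimplicialPolytope V ∧ ¬ HasCSFourCycle V ∧ V.card ≤ X.card := by
  classical
  obtain ⟨V, hVX, hVs, hhull, hvert⟩ := exists_extreme X hsym
  -- values on the hull
  have hbound : ∀ (u : Fin d → ℝ) (c : ℝ), (∀ v ∈ V, u ⬝ᵥ v ≤ c) → ∀ x ∈ X, u ⬝ᵥ x ≤ c := by
    intro u c h x hx
    have h1 : x ∈ convexHull ℝ (V : Set (Fin d → ℝ)) := by
      rw [hhull]
      exact subset_convexHull ℝ _ hx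
    have h2 : Convex ℝ {y : Fin d → ℝ | u ⬝ᵥ y ≤ c} := by
      intro a ha b hb p q hp hq hpq
      simp only [mem_ofPred_eq] at ha hb ⊢
      rw [dotProduct_add, dotProduct_smul, dotProduct_smul, smul_eq_mul, smul_eq_mul]
      calc p * (u ⬝ᵥ a) + q * (u ⬝ᵥ b) ≤ p * c + q * c :=
            add_le_add (mul_le_mul_of_nonneg_left ha hp) (mul_le_mul_of_nonneg_left hb hq)
        _ = c := by rw [← add_mul, hpq, one_mul]
    exact (convexHull_min (fun v hv => h v hv) h2) h1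
  have hmax : ∀ u v, v ∈ Face V u → MaxAt X u v := fun u v hv => hbound u _ hv.2
  have hspanV : ∀ u : Fin d → ℝ, u ≠ 0 → ∃ v ∈ V, 0 < u ⬝ᵥ v := by
    intro u hu
    by_contra hcon
    push Not at hcon
    obtain ⟨x, hx, h1⟩ := hspan u hu
    exact absurd h1 (not_lt.2 (hbound u 0 hcon x hx))
  have hVne : V.Nonempty := by
    have h1 : (fun _ : Fin d => (1 : ℝ)) ≠ 0 := by
      intro h0
      have := congrFun h0 ⟨0, by omega⟩
      simp at this
    obtain ⟨a, ha, _⟩ := hspanV _ h1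
    exact ⟨a, ha⟩
  -- a subspace containing all differences is everything
  have hker : ∀ (W : Submodule ℝ (Fin d → ℝ)), W ≠ ⊤ → ∃ u : Fin d → ℝ, u ≠ 0 ∧ ∀ w ∈ W, u ⬝ᵥ w = 0 := by
    intro W hW
    obtain ⟨f, hf, hf2⟩ := Submodule.exists_le_ker_of_lt_top W (lt_top_iff_ne_top.2 hW)
    refine ⟨fun i => f (Pi.single i 1), ?_, ?_⟩
    · intro h0
      apply hf
      apply LinearMap.pi_ext'
      intro i
      ext
      simpa using congrFun h0 i
    · intro w hw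
      have h1 : f w = 0 := hf2 hw
      rw [← h1]
      conv_rhs => rw [← Finset.univ_sum_single w]
      rw [map_sum]
      unfold dotProduct
      apply Finset.sum_congr rfl
      intro i _
      have : (Pi.single i (w i) : Fin d → ℝ) = w i • Pi.single i (1 : ℝ) := by
        rw [← Pi.single_smul]
        simp
      rw [this, map_smul, smul_eq_mul, mul_comm]
  have hspan_top : vectorSpan ℝ (V : Set (Fin d → ℝ)) = ⊤ := by
    by_contra hW
    obtain ⟨u, hu, h1⟩ := hker _ hW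
    obtain ⟨v, hv, h2⟩ := hspanV u hu
    have h3 := h1 _ (vsub_mem_vectorSpan ℝ (show v ∈ (V : Set (Fin d → ℝ)) from hv)
      (show -v ∈ (V : Set (Fin d → ℝ)) from hVs v hv))
    rw [vsub_eq_sub, dotProduct_sub, dotProduct_neg] at h3
    linarith
  have hFpos : ∀ u : Fin d → ℝ, u ≠ 0 → ∀ v ∈ Face V u, 0 < u ⬝ᵥ v := by
    intro u hu v hv
    obtain ⟨w, hw, h1⟩ := hspanV u hu
    exact lt_of_lt_of_le h1 (hv.2 w hw)
  refine ⟨V, ⟨hVs, ?_, hvert, ?_⟩, ?_, Finset.card_le_card hVX⟩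
  · rw [AffineSubspace.affineSpan_eq_top_iff_vectorSpan_eq_top_of_nonempty ℝ _ _ hVne.to_set]
    exact hspan_top
  · intro u hu
    -- the face as a finset
    let F : Finset (Fin d → ℝ) := V.filter (fun v => ∀ w ∈ V, u ⬝ᵥ w ≤ u ⬝ᵥ v)
    have hF : (F : Set (Fin d → ℝ)) = Face V u := by
      ext v
      simp [F, Face]
    have hFX : F ⊆ X := fun v hv => hVX (Finset.mem_filter.1 hv).1
    have hanti : ∀ v ∈ F, -v ∉ F := by
      intro v hv hnv
      have h1 := hFpos u hu v (by rw [← hF]; exact hv)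
      have h2 := hFpos u hu (-v) (by rw [← hF]; exact hnv)
      rw [dotProduct_neg] at h2
      linarith
    have heq : ∀ v ∈ F, ∀ w ∈ F, u ⬝ᵥ v = u ⬝ᵥ w := by
      intro v hv w hw
      have hv' := Finset.mem_filter.1 hv
      have hw' := Finset.mem_filter.1 hw
      exact le_antisymm (hw'.2 v hv'.1) (hv'.2 w hw'.1)
    have hcard : F.card ≤ d := by
      by_contra hc
      obtain ⟨F', hF', hc'⟩ := Finset.exists_subset_card_eq (show d + 1 ≤ F.card by omega)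
      have hind := hG F' (hF'.trans hFX) (fun v hv hnv => hanti v (hF' hv) (hF' hnv)) (by omega)
      have htop : vectorSpan ℝ (Set.range (fun v : (F' : Set (Fin d → ℝ)) => (v : Fin d → ℝ))) = ⊤ := by
        apply hind.vectorSpan_eq_top_of_card_eq_finrank_add_one
        simp [hc']
      rw [Subtype.range_coe] at htop
      let K : Submodule ℝ (Fin d → ℝ) :=
        { carrier := {w | u ⬝ᵥ w = 0}
          add_mem' := by
            intro a b ha hb
            simp only [mem_ofPred_eq] at ha hb ⊢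
            rw [dotProduct_add, ha, hb, add_zero]
          zero_mem' := by simp
          smul_mem' := by
            intro c a ha
            simp only [mem_ofPred_eq] at ha ⊢
            rw [dotProduct_smul, ha, smul_zero] }
      have hle : vectorSpan ℝ (F' : Set (Fin d → ℝ)) ≤ K := by
        rw [vectorSpan_def, Submodule.span_le]
        rintro _ ⟨a, ha, b, hb, rfl⟩
        change u ⬝ᵥ (a - b) = 0
        rw [dotProduct_sub, heq a (hF' ha) b (hF' hb), sub_self]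
      have hne' : F'.Nonempty := by
        rw [← Finset.card_pos]; omega
      obtain ⟨v, hv⟩ := hne'
      rw [htop] at hle
      have h1 : u ⬝ᵥ v = 0 := hle (Submodule.mem_top : v ∈ (⊤ : Submodule ℝ (Fin d → ℝ)))
      have h2 := hFpos u hu v (by rw [← hF]; exact hF' hv)
      linarith
    have hind := hG F hFX hanti (by omega)
    rw [hF] at hind
    exact hind
  · rintro ⟨v, hv, w, hw, hwv, hwnv, h1, _, _, h4⟩
    obtain ⟨_, u, hu, hu'⟩ := h1
    obtain ⟨_, u', hv0, hv'⟩ := h4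
    have a1 : v ∈ Face V u := by rw [hu']; simp
    have a2 : w ∈ Face V u := by rw [hu']; simp
    have a3 : v ∈ Face V u' := by rw [hv']; simp
    have a4 : -w ∈ Face V u' := by rw [hv']; simp
    exact hconf u u' hu hv0 v (hVX hv) w (hVX hw) (hmax _ _ a1) (hmax _ _ a2) (hmax _ _ a3)
      (hmax _ _ a4)

/-- symmetric sets with the separation property give polytopes -/
theorem exists_polytope_of_set (hd : 1 ≤ d) (S : Finset (Fin d → ℝ)) (hsym : ∀ s ∈ S, -s ∈ S)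
    (h0 : (0 : Fin d → ℝ) ∉ S) (hspan : ∀ u : Fin d → ℝ, u ≠ 0 → ∃ s ∈ S, 0 < u ⬝ᵥ s)
    (hconf : ∀ u u' : Fin d → ℝ, u ≠ 0 → u' ≠ 0 → ∀ s ∈ S, ∀ t ∈ S, MaxAt S u s → MaxAt S u t →
      MaxAt S u' s → MaxAt S u' (-t) → False) :
    ∃ V : Finset (Fin d → ℝ), IsCSSimplicialPolytope V ∧ ¬ HasCSFourCycle V ∧ V.card ≤ S.card := by
  classical
  obtain ⟨ε₁, hε₁, hs⟩ := exists_eps_span hd S hspan
  obtain ⟨ε₂, hε₂, hp⟩ := exists_common (S ×ˢ S) (fun p ε =>
      ∀ z : (Fin d → ℝ) → (Fin d → ℝ), (∀ x ∈ S, ‖z x - x‖ < ε) →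
      ∀ u : Fin d → ℝ, u ≠ 0 → (∀ x ∈ S, u ⬝ᵥ z x ≤ u ⬝ᵥ z p.1) → (∀ x ∈ S, u ⬝ᵥ z x ≤ u ⬝ᵥ z p.2) →
        ∃ u : Fin d → ℝ, u ≠ 0 ∧ MaxAt S u p.1 ∧ MaxAt S u p.2) (by
    rintro ⟨s, t⟩ hst
    rw [Finset.mem_product] at hst
    by_cases hno : ∃ u : Fin d → ℝ, u ≠ 0 ∧ MaxAt S u s ∧ MaxAt S u t
    · exact ⟨1, one_pos, fun _ _ _ _ _ _ => hno⟩
    · obtain ⟨ε, h1, h2⟩ := exists_eps_pair hd S hst.1 hst.2 hno
      exact ⟨ε, h1, fun z hz u hu h3 h4 => (h2 z hz u hu h3 h4).elim⟩) (by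
    intro a ε ε' _ hle h z hz
    exact h z (fun x hx => lt_of_lt_of_le (hz x hx) hle))
  obtain ⟨H, hH1, hH2, hH3⟩ := exists_half S hsym h0
  obtain ⟨x, hx1, hx2⟩ := exists_gpos H (lt_min hε₁ hε₂)
  let z : (Fin d → ℝ) → (Fin d → ℝ) := fun s => if s ∈ H then x s else -x (-s)
  have hzH : ∀ s, s ∈ H → z s = x s := fun s hs => by simp [z, hs]
  have hzn : ∀ s, -s ∈ H → z s = -x (-s) := fun s hs => by
    have : s ∉ H := fun h => hH2 s h hs
    simp [z, this]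
  have hzneg : ∀ s ∈ S, z (-s) = -z s := by
    intro s hs
    rcases (hH1 s).1 hs with h | h
    · rw [hzH s h, hzn (-s) (by rwa [neg_neg]), neg_neg]
    · rw [hzn s h, hzH (-s) h, neg_neg]
  have hzclose : ∀ s ∈ S, ‖z s - s‖ < min ε₁ ε₂ := by
    intro s hs
    rcases (hH1 s).1 hs with h | h
    · rw [hzH s h]
      exact hx1 s h
    · rw [hzn s h]
      have h2 := hx1 (-s) h
      have h3 : -x (-s) - s = -(x (-s) - -s) := by abel
      rw [h3, norm_neg]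
      exact h2
  have hzX : ∀ s ∈ S, z s ∈ pm H x := by
    intro s hs
    rw [mem_pm]
    rcases (hH1 s).1 hs with h | h
    · exact ⟨s, h, Or.inl (hzH s h)⟩
    · exact ⟨-s, h, Or.inr (hzn s h)⟩
  have hXz : ∀ v ∈ pm H x, ∃ s ∈ S, v = z s := by
    intro v hv
    rw [mem_pm] at hv
    obtain ⟨p, hp, h | h⟩ := hv
    · exact ⟨p, (hH1 p).2 (Or.inl hp), by rw [hzH p hp, h]⟩
    · refine ⟨-p, (hH1 (-p)).2 (Or.inr (by rwa [neg_neg])), ?_⟩
      rw [hzn (-p) (by rwa [neg_neg]), neg_neg, h]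
  have hmaxz : ∀ u s, s ∈ S → MaxAt (pm H x) u (z s) → ∀ y ∈ S, u ⬝ᵥ z y ≤ u ⬝ᵥ z s :=
    fun u s _ h y hy => h _ (hzX y hy)
  obtain ⟨V, h1, h2, h3⟩ := exists_polytope hd (pm H x) (fun v hv => neg_mem_pm hv) hx2 (by
    intro u hu
    obtain ⟨s, hs', h⟩ := hs z (fun s hs => lt_of_lt_of_le (hzclose s hs) (min_le_left _ _)) u hu
    exact ⟨z s, hzX s hs', h⟩) (by
    intro u u' hu hu' v hv w hw a1 a2 a3 a4
    obtain ⟨s, hs', rfl⟩ := hXz v hv
    obtain ⟨t, ht', rfl⟩ := hXz w hw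
    rw [← hzneg t ht'] at a4
    have hz2 : ∀ y ∈ S, ‖z y - y‖ < ε₂ := fun y hy => lt_of_lt_of_le (hzclose y hy) (min_le_right _ _)
    obtain ⟨u₁, hu₁, b1, b2⟩ := hp (s, t) (Finset.mem_product.2 ⟨hs', ht'⟩) z hz2 u hu
      (hmaxz _ _ hs' a1) (hmaxz _ _ ht' a2)
    obtain ⟨u₂, hu₂, b3, b4⟩ := hp (s, -t) (Finset.mem_product.2 ⟨hs', hsym t ht'⟩) z hz2 u' hu'
      (hmaxz _ _ hs' a3) (hmaxz _ _ (hsym t ht') a4)
    exact hconf u₁ u₂ hu₁ hu₂ s hs' t ht' b1 b2 b3 b4)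
  exact ⟨V, h1, h2, le_trans h3 (le_trans (card_pm_le H x) hH3)⟩

/-- compatible pairs give polytopes -/
theorem exists_polytope_of_pair (hd : 1 ≤ d) {A B : Finset (Fin d → ℝ)} (h : Pair A B) :
    ∃ V : Finset (Fin d → ℝ), IsCSSimplicialPolytope V ∧ ¬ HasCSFourCycle V ∧
      V.card ≤ A.card * B.card := by
  classical
  have hneA : A.Nonempty := h.neA hd
  have hneB : B.Nonempty := h.swap.neA hd
  let S : Finset (Fin d → ℝ) := ((A ×ˢ B).image (fun p => p.1 + p.2)).erase 0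
  have hmem : ∀ v, v ∈ S ↔ v ≠ 0 ∧ ∃ a ∈ A, ∃ b ∈ B, v = a + b := by
    intro v
    simp only [S, Finset.mem_erase, Finset.mem_image, Finset.mem_product, Prod.exists]
    constructor
    · rintro ⟨h1, a, b, ⟨h2, h3⟩, h4⟩
      exact ⟨h1, a, h2, b, h3, h4.symm⟩
    · rintro ⟨h1, a, h2, b, h3, h4⟩
      exact ⟨h1, a, b, ⟨h2, h3⟩, h4.symm⟩
  have hcard : S.card ≤ A.card * B.card := by
    refine le_trans (Finset.card_erase_le) (le_trans Finset.card_image_le ?_)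
    rw [Finset.card_product]
  have hspan : ∀ u : Fin d → ℝ, u ≠ 0 → ∃ s ∈ S, 0 < u ⬝ᵥ s := by
    intro u hu
    obtain ⟨a, ha, h1⟩ := h.spanA u hu
    obtain ⟨b, hb, h2⟩ := h.spanB u hu
    have h3 : 0 < u ⬝ᵥ (a + b) := by rw [dotProduct_add]; linarith
    refine ⟨a + b, (hmem _).2 ⟨?_, a, ha, b, hb, rfl⟩, h3⟩
    intro h0
    rw [h0, dotProduct_zero] at h3
    exact lt_irrefl _ h3
  -- maximisers on the sum
  have hmaxAB : ∀ u : Fin d → ℝ, u ≠ 0 → ∀ a ∈ A, ∀ b ∈ B, MaxAt S u (a + b) →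
      (∀ a' ∈ A, u ⬝ᵥ a' ≤ u ⬝ᵥ a) ∧ (∀ b' ∈ B, u ⬝ᵥ b' ≤ u ⬝ᵥ b) := by
    intro u hu a ha b hb hm
    have hpos : 0 < u ⬝ᵥ (a + b) := by
      obtain ⟨s, hs, h1⟩ := hspan u hu
      exact lt_of_lt_of_le h1 (hm s hs)
    have hall : ∀ a' ∈ A, ∀ b' ∈ B, u ⬝ᵥ (a' + b') ≤ u ⬝ᵥ (a + b) := by
      intro a' ha' b' hb'
      by_cases h0 : a' + b' = 0
      · rw [h0, dotProduct_zero]
        exact hpos.le
      · exact hm _ ((hmem _).2 ⟨h0, a', ha', b', hb', rfl⟩)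
    constructor
    · intro a' ha'
      have := hall a' ha' b hb
      rw [dotProduct_add, dotProduct_add] at this
      linarith
    · intro b' hb'
      have := hall a ha b' hb'
      rw [dotProduct_add, dotProduct_add] at this
      linarith
  obtain ⟨V, h1, h2, h3⟩ := exists_polytope_of_set hd S (by
    intro s hs
    rw [hmem] at hs ⊢
    obtain ⟨h0, a, ha, b, hb, rfl⟩ := hs
    exact ⟨by rwa [neg_ne_zero], -a, h.symA a ha, -b, h.symB b hb, by rw [neg_add]⟩) (by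
    rw [hmem]
    exact fun h => h.1 rfl) hspan (by
    intro u u' hu hu' s hs t ht a1 a2 a3 a4
    rw [hmem] at hs ht
    obtain ⟨_, a, ha, b, hb, rfl⟩ := hs
    obtain ⟨_, a', ha', b', hb', rfl⟩ := ht
    have c1 := (hmaxAB u hu a ha b hb a1).1
    have c2 := (hmaxAB u hu a' ha' b' hb' a2).2
    have c3 := (hmaxAB u' hu' a ha b hb a3).1
    rw [neg_add] at a4
    have c4 := (hmaxAB u' hu' (-a') (h.symA a' ha') (-b') (h.symB b' hb') a4).2
    have e1 := h.comp u hu a ha b' hb' c1 c2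
    have e2 := h.comp u' hu' a ha (-b') (h.symB b' hb') c3 c4
    rw [dotProduct_neg] at e2
    linarith)
  exact ⟨V, h1, h2, le_trans h3 hcard⟩

end Pool.Agent.CS4
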