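import Mathlib

/-!
# General position for finite symmetric sets in `Fin d → ℝ`
-/

open MeasureTheory Set

namespace Pool.Agent.CS4

variable {d : ℕ}

/-- general position of a finite set, antipodal points excepted -/
def GPos (X : Finset (Fin d → ℝ)) : Prop :=
  ∀ F : Finset (Fin d → ℝ), F ⊆ X → (∀ v ∈ F, -v ∉ F) → F.card ≤ d + 1 →
    AffineIndependent ℝ (fun v : (F : Set (Fin d → ℝ)) => (v : Fin d → ℝ))

theorem affineSpan_ne_top {G : Finset (Fin d → ℝ)} (hG : G.card ≤ d) :
    affineSpan ℝ (G : Set (Fin d → ℝ)) ≠ ⊤ := by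
  classical
  intro h
  rcases G.eq_empty_or_nonempty with h0 | h0
  · subst h0
    simp at h
  · obtain ⟨n, hn⟩ : ∃ n, G.card = n + 1 := ⟨G.card - 1, by have := h0.card_pos; omega⟩
    have h1 := finrank_vectorSpan_image_finset_le ℝ (fun x : Fin d → ℝ => x) G hn
    have h2 : vectorSpan ℝ (G : Set (Fin d → ℝ)) = ⊤ := by
      rw [← direction_affineSpan, h, AffineSubspace.direction_top]
    have h3 : (Finset.image (fun x : Fin d → ℝ => x) G : Set (Fin d → ℝ)) = G := by simp
    rw [h3, h2, finrank_top] at h1
    simp at h1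
    omega

theorem affineIndependent_insert {G : Finset (Fin d → ℝ)} {w : Fin d → ℝ} {F : Finset (Fin d → ℝ)}
    (hF : ∀ x, x ∈ F ↔ x = w ∨ x ∈ G) (hw : w ∉ affineSpan ℝ (G : Set (Fin d → ℝ)))
    (hG : AffineIndependent ℝ (fun v : (G : Set (Fin d → ℝ)) => (v : Fin d → ℝ))) :
    AffineIndependent ℝ (fun v : (F : Set (Fin d → ℝ)) => (v : Fin d → ℝ)) := by
  have hwF : w ∈ (F : Set (Fin d → ℝ)) := by simp [hF]
  refine AffineIndependent.affineIndependent_of_notMem_span (i := ⟨w, hwF⟩) ?_ ?_
  · have h1 : ∀ y : {y : (F : Set (Fin d → ℝ)) // y ≠ ⟨w, hwF⟩}, (y : Fin d → ℝ) ∈ (G : Set (Fin d → ℝ)) := by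
      rintro ⟨⟨y, hy⟩, hne⟩
      rcases (hF y).1 (by simpa using hy) with h | h
      · exact absurd (Subtype.ext h) hne
      · simpa using h
    let f : {y : (F : Set (Fin d → ℝ)) // y ≠ ⟨w, hwF⟩} ↪ (G : Set (Fin d → ℝ)) :=
      ⟨fun y => ⟨y, h1 y⟩, fun a b hab => by
        apply Subtype.ext
        apply Subtype.ext
        exact congrArg (fun z : (G : Set (Fin d → ℝ)) => (z : Fin d → ℝ)) hab⟩
    exact hG.comp_embedding f
  · intro h
    apply hw
    refine affineSpan_mono ℝ ?_ h
    rintro _ ⟨⟨y, hy⟩, hne, rfl⟩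
    rcases (hF y).1 (by simpa using hy) with h | h
    · exact absurd (Subtype.ext h) hne
    · simpa using h

theorem exists_gpos_point (X : Finset (Fin d → ℝ)) (p : Fin d → ℝ) {ε : ℝ}
    (hε : 0 < ε) :
    ∃ y : Fin d → ℝ, ‖y - p‖ < ε ∧ ∀ G : Finset (Fin d → ℝ), G ⊆ X → G.card ≤ d →
      y ∉ affineSpan ℝ (G : Set (Fin d → ℝ)) := by
  classical
  have h0 : volume (⋃ G ∈ ((X.powerset.filter (fun G => G.card ≤ d) : Finset (Finset (Fin d → ℝ))) :
      Set (Finset (Fin d → ℝ))), (affineSpan ℝ (G : Set (Fin d → ℝ)) : Set (Fin d → ℝ))) = 0 := by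
    rw [measure_biUnion_null_iff (Finset.countable_toSet _)]
    intro G hG
    have hG' := (Finset.mem_filter.1 (Finset.mem_coe.1 hG)).2
    exact Measure.addHaar_affineSubspace volume _ (affineSpan_ne_top hG')
  have h1 : 0 < volume (Metric.ball p ε) := Metric.measure_ball_pos volume p hε
  have h2 : (Metric.ball p ε \ ⋃ G ∈ ((X.powerset.filter (fun G => G.card ≤ d) :
      Finset (Finset (Fin d → ℝ))) : Set (Finset (Fin d → ℝ))),
      (affineSpan ℝ (G : Set (Fin d → ℝ)) : Set (Fin d → ℝ))).Nonempty := by
    apply nonempty_of_measure_ne_zero (μ := volume)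
    rw [measure_sdiff_null h0]
    exact h1.ne'
  obtain ⟨y, hy1, hy2⟩ := h2
  refine ⟨y, by simpa [dist_eq_norm] using hy1, fun G hG hc hy => hy2 ?_⟩
  simp only [mem_iUnion]
  exact ⟨G, by simp [hG, hc], hy⟩

/-- the symmetric set `± x(H)` -/
noncomputable def pm (H : Finset (Fin d → ℝ)) (x : (Fin d → ℝ) → (Fin d → ℝ)) :
    Finset (Fin d → ℝ) := by
  classical
  exact H.image x ∪ H.image (fun p => -x p)

theorem mem_pm {H : Finset (Fin d → ℝ)} {x : (Fin d → ℝ) → (Fin d → ℝ)} {v : Fin d → ℝ} :
    v ∈ pm H x ↔ ∃ p ∈ H, v = x p ∨ v = -x p := by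
  classical
  unfold pm
  simp only [Finset.mem_union, Finset.mem_image]
  constructor
  · rintro (⟨p, h1, h2⟩ | ⟨p, h1, h2⟩)
    · exact ⟨p, h1, Or.inl h2.symm⟩
    · exact ⟨p, h1, Or.inr h2.symm⟩
  · rintro ⟨p, h1, h2 | h2⟩
    · exact Or.inl ⟨p, h1, h2.symm⟩
    · exact Or.inr ⟨p, h1, h2.symm⟩

theorem neg_mem_pm {H : Finset (Fin d → ℝ)} {x : (Fin d → ℝ) → (Fin d → ℝ)} {v : Fin d → ℝ}
    (h : v ∈ pm H x) : -v ∈ pm H x := by
  rw [mem_pm] at h ⊢
  obtain ⟨p, h1, h2 | h2⟩ := h
  · exact ⟨p, h1, Or.inr (by rw [h2])⟩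
  · exact ⟨p, h1, Or.inl (by rw [h2, neg_neg])⟩

theorem card_pm_le (H : Finset (Fin d → ℝ)) (x : (Fin d → ℝ) → (Fin d → ℝ)) :
    (pm H x).card ≤ 2 * H.card := by
  classical
  unfold pm
  calc _ ≤ (H.image x).card + (H.image (fun p => -x p)).card := Finset.card_union_le _ _
    _ ≤ H.card + H.card := add_le_add Finset.card_image_le Finset.card_image_le
    _ = 2 * H.card := by ring

theorem exists_gpos (H : Finset (Fin d → ℝ)) {ε : ℝ} (hε : 0 < ε) :
    ∃ x : (Fin d → ℝ) → (Fin d → ℝ), (∀ p ∈ H, ‖x p - p‖ < ε) ∧ GPos (pm H x) := by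
  classical
  induction H using Finset.induction_on with
  | empty =>
    refine ⟨id, by simp, ?_⟩
    intro F hF _ _
    have h0 : F = ∅ := by
      apply Finset.eq_empty_of_forall_notMem
      intro v hv
      have := hF hv
      rw [mem_pm] at this
      obtain ⟨p, hp, _⟩ := this
      simp at hp
    subst h0
    have : IsEmpty ((∅ : Finset (Fin d → ℝ)) : Set (Fin d → ℝ)) := by simp
    exact affineIndependent_of_subsingleton ℝ _
  | insert p H hp ih =>
    obtain ⟨x, hx1, hx2⟩ := ih
    obtain ⟨y, hy1, hy2⟩ := exists_gpos_point (pm H x) p hε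
    refine ⟨Function.update x p y, ?_, ?_⟩
    · intro q hq
      rcases Finset.mem_insert.1 hq with h | h
      · subst h
        simpa using hy1
      · have : q ≠ p := fun h' => hp (h' ▸ h)
        simpa [Function.update_of_ne this] using hx1 q h
    · have hmem : ∀ v, v ∈ pm (insert p H) (Function.update x p y) ↔
          v = y ∨ v = -y ∨ v ∈ pm H x := by
        intro v
        rw [mem_pm, mem_pm]
        constructor
        · rintro ⟨q, hq, h⟩
          rcases Finset.mem_insert.1 hq with h' | h'
          · subst h'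
            simp only [Function.update_self] at h
            tauto
          · have : q ≠ p := fun h'' => hp (h'' ▸ h')
            rw [Function.update_of_ne this] at h
            exact Or.inr (Or.inr ⟨q, h', h⟩)
        · rintro (h | h | ⟨q, hq, h⟩)
          · exact ⟨p, by simp, Or.inl (by simpa using h)⟩
          · exact ⟨p, by simp, Or.inr (by simpa using h)⟩
          · have : q ≠ p := fun h'' => hp (h'' ▸ hq)
            exact ⟨q, by simp [hq], by rwa [Function.update_of_ne this]⟩
      intro F hF hanti hcard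
      by_cases hyF : y ∈ F
      · have hny : -y ∉ F := hanti y hyF
        have hG : F.erase y ⊆ pm H x := by
          intro v hv
          rw [Finset.mem_erase] at hv
          rcases (hmem v).1 (hF hv.2) with h | h | h
          · exact absurd h hv.1
          · exact absurd (h ▸ hv.2) hny
          · exact h
        have hGc : (F.erase y).card ≤ d := by
          rw [Finset.card_erase_of_mem hyF]; omega
        refine affineIndependent_insert (G := F.erase y) (w := y) ?_ (hy2 _ hG hGc)
          (hx2 _ hG (fun v hv hv' => hanti v (Finset.mem_of_mem_erase hv)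
            (Finset.mem_of_mem_erase hv')) (by omega))
        intro v
        rw [Finset.mem_erase]
        constructor
        · intro h
          by_cases h' : v = y
          · exact Or.inl h'
          · exact Or.inr ⟨h', h⟩
        · rintro (h | h)
          · rwa [h]
          · exact h.2
      · by_cases hnyF : -y ∈ F
        · have hG : F.erase (-y) ⊆ pm H x := by
            intro v hv
            rw [Finset.mem_erase] at hv
            rcases (hmem v).1 (hF hv.2) with h | h | h
            · exact absurd (h ▸ hv.2) hyF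
            · exact absurd h hv.1
            · exact h
          have hGc : (F.erase (-y)).card ≤ d := by
            rw [Finset.card_erase_of_mem hnyF]; omega
          have hsp : -y ∉ affineSpan ℝ ((F.erase (-y) : Finset (Fin d → ℝ)) : Set (Fin d → ℝ)) := by
            intro h
            have h1 := AffineSubspace.mem_map_of_mem
              ((LinearEquiv.neg ℝ : (Fin d → ℝ) ≃ₗ[ℝ] (Fin d → ℝ)).toLinearMap.toAffineMap) h
            rw [AffineSubspace.map_span] at h1
            have h2 : ((F.erase (-y)).image (fun v => -v)) ⊆ pm H x := by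
              intro v hv
              rw [Finset.mem_image] at hv
              obtain ⟨w, hw, rfl⟩ := hv
              exact neg_mem_pm (hG hw)
            refine hy2 _ h2 (le_trans Finset.card_image_le hGc) ?_
            have h3 : (((F.erase (-y)).image (fun v => -v) : Finset (Fin d → ℝ)) : Set (Fin d → ℝ)) =
                (LinearEquiv.neg ℝ : (Fin d → ℝ) ≃ₗ[ℝ] (Fin d → ℝ)).toLinearMap.toAffineMap ''
                  ((F.erase (-y) : Finset (Fin d → ℝ)) : Set (Fin d → ℝ)) := by
              rw [Finset.coe_image]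
              apply Set.image_congr
              intro v _
              simp
            rw [h3]
            simpa using h1
          refine affineIndependent_insert (G := F.erase (-y)) (w := -y) ?_ hsp
            (hx2 _ hG (fun v hv hv' => hanti v (Finset.mem_of_mem_erase hv)
              (Finset.mem_of_mem_erase hv')) (by omega))
          intro v
          rw [Finset.mem_erase]
          constructor
          · intro h
            by_cases h' : v = -y
            · exact Or.inl h'
            · exact Or.inr ⟨h', h⟩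
          · rintro (h | h)
            · rwa [h]
            · exact h.2
        · refine hx2 F ?_ hanti hcard
          intro v hv
          rcases (hmem v).1 (hF hv) with h | h | h
          · exact absurd (h ▸ hv) hyF
          · exact absurd (h ▸ hv) hnyF
          · exact h

end Pool.Agent.CS4
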