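import Pool.Agent.CS4.Defs
import Pool.Agent.CS4.Pos

/-!
# From a finite symmetric set to a simplicial polytope
-/

open Set

namespace Pool.Agent.CS4

variable {d : ℕ}

/-- `s` maximises `⟨u, ·⟩` on `S` -/
def MaxAt (S : Finset (Fin d → ℝ)) (u s : Fin d → ℝ) : Prop := ∀ x ∈ S, u ⬝ᵥ x ≤ u ⬝ᵥ s

theorem exists_half (S : Finset (Fin d → ℝ)) (hsym : ∀ s ∈ S, -s ∈ S) (h0 : (0 : Fin d → ℝ) ∉ S) :
    ∃ H : Finset (Fin d → ℝ), (∀ p, p ∈ S ↔ p ∈ H ∨ -p ∈ H) ∧ (∀ p ∈ H, -p ∉ H) ∧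
      2 * H.card ≤ S.card := by
  classical
  induction S using Finset.strongInduction with
  | H S ih =>
    rcases S.eq_empty_or_nonempty with rfl | ⟨p, hp⟩
    · exact ⟨∅, by simp, by simp, by simp⟩
    · have hpn : p ≠ -p := by
        intro h
        have h1 : p = 0 := self_eq_neg.1 h
        exact h0 (h1 ▸ hp)
      have hnp : -p ∈ S := hsym p hp
      have hnp' : -p ∈ S.erase p := Finset.mem_erase.2 ⟨hpn.symm, hnp⟩
      have hmem : ∀ q, q ∈ (S.erase p).erase (-p) ↔ q ≠ -p ∧ q ≠ p ∧ q ∈ S := by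
        intro q
        rw [Finset.mem_erase, Finset.mem_erase]
      have hss : (S.erase p).erase (-p) ⊂ S :=
        lt_of_le_of_lt (Finset.erase_subset _ _) (Finset.erase_ssubset hp)
      have hcard : ((S.erase p).erase (-p)).card + 2 = S.card := by
        rw [Finset.card_erase_of_mem hnp', Finset.card_erase_of_mem hp]
        have h1 : 1 ≤ (S.erase p).card := Finset.card_pos.2 ⟨_, hnp'⟩
        rw [Finset.card_erase_of_mem hp] at h1
        omega
      obtain ⟨H, h1, h2, h3⟩ := ih _ hss (by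
        intro q hq
        rw [hmem] at hq ⊢
        refine ⟨fun h => hq.2.1 (neg_injective h), fun h => hq.1 (by rw [← h, neg_neg]),
          hsym q hq.2.2⟩) (by
        rw [hmem]
        exact fun h => h0 h.2.2)
      have hpH : p ∉ H := fun h => by
        have := (h1 p).2 (Or.inl h)
        rw [hmem] at this
        exact this.2.1 rfl
      have hnpH : -p ∉ H := fun h => by
        have := (h1 (-p)).2 (Or.inl h)
        rw [hmem] at this
        exact this.1 rfl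
      refine ⟨insert p H, ?_, ?_, ?_⟩
      · intro q
        rw [Finset.mem_insert, Finset.mem_insert]
        constructor
        · intro hq
          by_cases hqp : q = p
          · exact Or.inl (Or.inl hqp)
          · by_cases hqn : q = -p
            · exact Or.inr (Or.inl (by rw [hqn, neg_neg]))
            · rcases (h1 q).1 ((hmem q).2 ⟨hqn, hqp, hq⟩) with h | h
              · exact Or.inl (Or.inr h)
              · exact Or.inr (Or.inr h)
        · rintro ((h | h) | (h | h))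
          · rwa [h]
          · exact ((hmem q).1 ((h1 q).2 (Or.inl h))).2.2
          · have : q = -p := by rw [← h, neg_neg]
            rwa [this]
          · exact ((hmem q).1 ((h1 q).2 (Or.inr h))).2.2
      · intro q hq hnq
        rw [Finset.mem_insert] at hq hnq
        rcases hq with h | h
        · subst h
          rcases hnq with h' | h'
          · exact hpn h'.symm
          · exact hnpH h'
        · rcases hnq with h' | h'
          · have : q = -p := by rw [← h', neg_neg]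
            rw [this] at h
            exact hnpH h
          · exact h2 q h h'
      · rw [Finset.card_insert_of_notMem hpH]
        omega

theorem exists_common {α : Type*} (T : Finset α) (Q : α → ℝ → Prop)
    (hQ : ∀ a ∈ T, ∃ ε : ℝ, 0 < ε ∧ Q a ε)
    (hmono : ∀ a ε ε', 0 < ε' → ε' ≤ ε → Q a ε → Q a ε') : ∃ ε : ℝ, 0 < ε ∧ ∀ a ∈ T, Q a ε := by
  classical
  induction T using Finset.induction_on with
  | empty => exact ⟨1, one_pos, by simp⟩
  | insert a T ha ih =>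
    obtain ⟨ε, h1, h2⟩ := ih (fun b hb => hQ b (Finset.mem_insert_of_mem hb))
    obtain ⟨ε', h3, h4⟩ := hQ a (Finset.mem_insert_self _ _)
    refine ⟨min ε ε', lt_min h1 h3, fun b hb => ?_⟩
    rcases Finset.mem_insert.1 hb with rfl | h
    · exact hmono _ _ _ (lt_min h1 h3) (min_le_right _ _) h4
    · exact hmono _ _ _ (lt_min h1 h3) (min_le_left _ _) (h2 b h)

theorem abs_dot_le (u w : Fin d → ℝ) : |u ⬝ᵥ w| ≤ d * (‖u‖ * ‖w‖) := by
  unfold dotProduct
  calc |∑ i, u i * w i| ≤ ∑ i, |u i * w i| := Finset.abs_sum_le_sum_abs _ _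
    _ ≤ ∑ _i : Fin d, ‖u‖ * ‖w‖ := by
        apply Finset.sum_le_sum
        intro i _
        rw [abs_mul]
        exact mul_le_mul (norm_le_pi_norm u i) (norm_le_pi_norm w i) (abs_nonneg _) (norm_nonneg _)
    _ = d * (‖u‖ * ‖w‖) := by simp

theorem exists_lower (hd : 1 ≤ d) (φ : (Fin d → ℝ) → ℝ) (hφ : Continuous φ)
    (hpos : ∀ u, ‖u‖ = 1 → 0 < φ u) : ∃ δ : ℝ, 0 < δ ∧ ∀ u, ‖u‖ = 1 → δ ≤ φ u := by
  have hK : IsCompact (Metric.sphere (0 : Fin d → ℝ) 1) := isCompact_sphere _ _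
  have hne : (Metric.sphere (0 : Fin d → ℝ) 1).Nonempty := by
    have : Nonempty (Fin d) := ⟨⟨0, by omega⟩⟩
    have : Nontrivial (Fin d → ℝ) := Function.nontrivial
    exact NormedSpace.sphere_nonempty.2 (by norm_num)
  obtain ⟨u₀, h1, h2⟩ := hK.exists_isMinOn hne hφ.continuousOn
  refine ⟨φ u₀, hpos u₀ (by simpa using h1), fun u hu => ?_⟩
  exact h2 (by simpa using hu)

theorem continuous_dot_left (w : Fin d → ℝ) : Continuous (fun u : Fin d → ℝ => u ⬝ᵥ w) := by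
  unfold dotProduct
  fun_prop

theorem norm_normalize {u : Fin d → ℝ} (hu : u ≠ 0) : ‖(‖u‖⁻¹ • u)‖ = 1 := by
  rw [norm_smul, norm_inv, norm_norm]
  exact inv_mul_cancel₀ (norm_ne_zero_iff.2 hu)

theorem exists_eps_span (hd : 1 ≤ d) (S : Finset (Fin d → ℝ))
    (hspan : ∀ u : Fin d → ℝ, u ≠ 0 → ∃ s ∈ S, 0 < u ⬝ᵥ s) :
    ∃ ε : ℝ, 0 < ε ∧ ∀ z : (Fin d → ℝ) → (Fin d → ℝ), (∀ s ∈ S, ‖z s - s‖ < ε) →
      ∀ u : Fin d → ℝ, u ≠ 0 → ∃ s ∈ S, 0 < u ⬝ᵥ z s := by
  have hne : S.Nonempty := by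
    have h1 : (fun _ : Fin d => (1 : ℝ)) ≠ 0 := by
      intro h0
      have := congrFun h0 ⟨0, by omega⟩
      simp at this
    obtain ⟨a, ha, _⟩ := hspan _ h1
    exact ⟨a, ha⟩
  have hd' : (1 : ℝ) ≤ d := by exact_mod_cast hd
  obtain ⟨δ, hδ, h⟩ := exists_lower hd (fun u => S.sup' hne (fun p => u ⬝ᵥ p))
    (Continuous.finset_sup'_apply hne (fun p _ => continuous_dot_left p)) (by
      intro u hu
      have hu0 : u ≠ 0 := by
        intro h0
        rw [h0, norm_zero] at hu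
        exact zero_ne_one hu
      obtain ⟨s, hs, h1⟩ := hspan u hu0
      exact lt_of_lt_of_le h1 (Finset.le_sup' (fun p => u ⬝ᵥ p) hs))
  refine ⟨δ / (2 * d), by positivity, fun z hz u hu => ?_⟩
  have h1 := h _ (norm_normalize hu)
  obtain ⟨s, hs, h2⟩ := Finset.exists_mem_eq_sup' hne (fun p => (‖u‖⁻¹ • u) ⬝ᵥ p)
  rw [h2] at h1
  refine ⟨s, hs, ?_⟩
  have h3 := abs_dot_le (‖u‖⁻¹ • u) (z s - s)
  rw [norm_normalize hu, one_mul, dotProduct_sub] at h3
  have h4 := hz s hs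
  have h5 : (d : ℝ) * ‖z s - s‖ ≤ δ / 2 := by
    calc (d : ℝ) * ‖z s - s‖ ≤ d * (δ / (2 * d)) := by
          apply mul_le_mul_of_nonneg_left h4.le (by positivity)
      _ = δ / 2 := by field_simp
  have h6 : 0 < (‖u‖⁻¹ • u) ⬝ᵥ z s := by
    have := (abs_le.1 (le_trans h3 h5)).1
    linarith
  rw [smul_dotProduct, smul_eq_mul] at h6
  have h7 : 0 < ‖u‖⁻¹ := inv_pos.2 (norm_pos_iff.2 hu)
  exact (mul_pos_iff_of_pos_left h7).1 h6

theorem exists_eps_pair (hd : 1 ≤ d) (S : Finset (Fin d → ℝ)) {s t : Fin d → ℝ} (hs : s ∈ S)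
    (ht : t ∈ S) (hno : ¬ ∃ u : Fin d → ℝ, u ≠ 0 ∧ MaxAt S u s ∧ MaxAt S u t) :
    ∃ ε : ℝ, 0 < ε ∧ ∀ z : (Fin d → ℝ) → (Fin d → ℝ), (∀ x ∈ S, ‖z x - x‖ < ε) →
      ∀ u : Fin d → ℝ, u ≠ 0 → (∀ x ∈ S, u ⬝ᵥ z x ≤ u ⬝ᵥ z s) → (∀ x ∈ S, u ⬝ᵥ z x ≤ u ⬝ᵥ z t) →
        False := by
  have hne : S.Nonempty := ⟨s, hs⟩
  have hd' : (1 : ℝ) ≤ d := by exact_mod_cast hd
  obtain ⟨δ, hδ, h⟩ := exists_lower hd
    (fun u => S.sup' hne (fun p => u ⬝ᵥ p) - min (u ⬝ᵥ s) (u ⬝ᵥ t))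
    ((Continuous.finset_sup'_apply hne (fun p _ => continuous_dot_left p)).sub
      ((continuous_dot_left s).min (continuous_dot_left t))) (by
      intro u hu
      have hu0 : u ≠ 0 := by
        intro h0
        rw [h0, norm_zero] at hu
        exact zero_ne_one hu
      by_contra hcon
      apply hno
      refine ⟨u, hu0, fun x hx => ?_, fun x hx => ?_⟩
      · have h1 := Finset.le_sup' (fun p => u ⬝ᵥ p) hx
        have h2 := min_le_left (u ⬝ᵥ s) (u ⬝ᵥ t)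
        linarith
      · have h1 := Finset.le_sup' (fun p => u ⬝ᵥ p) hx
        have h2 := min_le_right (u ⬝ᵥ s) (u ⬝ᵥ t)
        linarith)
  refine ⟨δ / (4 * d), by positivity, fun z hz u hu hms hmt => ?_⟩
  have h1 := h _ (norm_normalize hu)
  obtain ⟨x, hx, h2⟩ := Finset.exists_mem_eq_sup' hne (fun p => (‖u‖⁻¹ • u) ⬝ᵥ p)
  rw [h2] at h1
  have h7 : 0 < ‖u‖⁻¹ := inv_pos.2 (norm_pos_iff.2 hu)
  have key : ∀ y ∈ S, |(‖u‖⁻¹ • u) ⬝ᵥ z y - (‖u‖⁻¹ • u) ⬝ᵥ y| ≤ δ / 4 := by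
    intro y hy
    have h3 := abs_dot_le (‖u‖⁻¹ • u) (z y - y)
    rw [norm_normalize hu, one_mul, dotProduct_sub] at h3
    refine le_trans h3 ?_
    calc (d : ℝ) * ‖z y - y‖ ≤ d * (δ / (4 * d)) := by
          apply mul_le_mul_of_nonneg_left (hz y hy).le (by positivity)
      _ = δ / 4 := by field_simp
  have kx := abs_le.1 (key x hx)
  have ks := abs_le.1 (key s hs)
  have kt := abs_le.1 (key t ht)
  have ms : (‖u‖⁻¹ • u) ⬝ᵥ z x ≤ (‖u‖⁻¹ • u) ⬝ᵥ z s := by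
    rw [smul_dotProduct, smul_dotProduct, smul_eq_mul, smul_eq_mul]
    exact mul_le_mul_of_nonneg_left (hms x hx) h7.le
  have mt : (‖u‖⁻¹ • u) ⬝ᵥ z x ≤ (‖u‖⁻¹ • u) ⬝ᵥ z t := by
    rw [smul_dotProduct, smul_dotProduct, smul_eq_mul, smul_eq_mul]
    exact mul_le_mul_of_nonneg_left (hmt x hx) h7.le
  rcases min_choice ((‖u‖⁻¹ • u) ⬝ᵥ s) ((‖u‖⁻¹ • u) ⬝ᵥ t) with h8 | h8
  · rw [h8] at h1
    linarith [kx.1, kx.2, ks.1, ks.2]
  · rw [h8] at h1
    linarith [kx.1, kx.2, kt.1, kt.2]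

end Pool.Agent.CS4
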